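import Mathlib

/-!
# The tree stabbing number is not monotone

`TREE-STAB(S)` is the minimum over the spanning trees of the point set `S` (edges drawn as segments) of the
maximum number of edges stabbed by a line. We show that it can grow when a point is removed: for the seven points
`c = (0,0)`, `(0,1), (0,2)`, `(-1,-1), (-2,-2)`, `(1,-1), (2,-2)` (two points on each of three rays from `c`) it is at
most 2, and for the six points without `c` it is at least 3.

Upper bound: the tree which joins `c` along the rays. A line which misses `c` meets each ray at most once, and at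
most two of the rays. Lower bound: consider the six lines which separate two rays and split the third ray. An edge
between two points of one ray is stabbed by 2 of these lines, every other edge by 4. A spanning tree has 5
edges, of which at most 3 are of the first kind, so that in total there are at least `3 * 2 + 2 * 4 = 14` stabs and
one of the six lines stabs at least three edges.
-/

set_option autoImplicit false

namespace Pool.Agent.Results.MP_3f72ec_co.TreeStabNotMonotone

/-- points of the plane. -/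
abbrev Pt := ℝ × ℝ

/-- `ℓ` is a line of the plane. -/
def IsLine (ℓ : Set Pt) : Prop :=
  ∃ a b c : ℝ, (a ≠ 0 ∨ b ≠ 0) ∧ ℓ = {x | a * x.1 + b * x.2 = c}

/-- The line `ℓ` stabs the segment `[p, q]`: the intersection is exactly one point, and this point is in the
relative interior of the segment. -/
def Stabs (ℓ : Set Pt) (p q : Pt) : Prop := ∃ z ∈ openSegment ℝ p q, ℓ ∩ segment ℝ p q = {z}

/-- The number of edges of the graph `T` (with vertices in the plane) which are stabbed by `ℓ`. -/
noncomputable def stabbed {S : Set Pt} (T : SimpleGraph S) (ℓ : Set Pt) : ℕ :=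
  {e : Sym2 S | e ∈ T.edgeSet ∧ ∃ p q : S, e = s(p, q) ∧ Stabs ℓ p q}.ncard

/-- The stabbing number of `T`: the maximum of the number of stabbed edges over all lines. -/
noncomputable def stabNumber {S : Set Pt} (T : SimpleGraph S) : ℕ :=
  sSup {n | ∃ ℓ, IsLine ℓ ∧ n = stabbed T ℓ}

/-- `TREE-STAB(S)`: the minimum of the stabbing numbers of the trees with vertex set `S`. -/
noncomputable def treeStab (S : Set Pt) : ℕ :=
  sInf {n | ∃ T : SimpleGraph S, T.IsTree ∧ n = stabNumber T}

/-! ### Stabbing and signs -/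

theorem stabs_of_opp (a b c : ℝ) (p q : Pt)
    (h : (a * p.1 + b * p.2 - c) * (a * q.1 + b * q.2 - c) < 0) :
    Stabs {x | a * x.1 + b * x.2 = c} p q := by
  set u := a * p.1 + b * p.2 - c with hu
  set v := a * q.1 + b * q.2 - c with hv
  have huv : u - v ≠ 0 := by
    intro h0
    have : u = v := by linarith
    rw [this] at h
    nlinarith [mul_self_nonneg v]
  have ht0 : 0 < -v / (u - v) := by
    rcases lt_or_gt_of_ne huv with h1 | h1
    · apply div_pos_of_neg_of_neg _ h1
      nlinarith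
    · apply div_pos _ h1
      nlinarith
  have ht1 : 0 < u / (u - v) := by
    rcases lt_or_gt_of_ne huv with h1 | h1
    · apply div_pos_of_neg_of_neg _ h1
      nlinarith
    · apply div_pos _ h1
      nlinarith
  have hsum : -v / (u - v) + u / (u - v) = 1 := by
    rw [← add_div]
    have : -v + u = u - v := by ring
    rw [this, div_self huv]
  refine ⟨(-v / (u - v)) • p + (u / (u - v)) • q, ⟨_, _, ht0, ht1, hsum, rfl⟩, ?_⟩
  ext x
  simp only [Set.mem_inter_iff, Set.mem_ofPred_eq, Set.mem_singleton_iff]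
  constructor
  · rintro ⟨hx, ⟨s, t, hs, ht, hst, rfl⟩⟩
    have hx' : s * u + t * v = 0 := by
      simp only [Prod.fst_add, Prod.smul_fst, Prod.snd_add, Prod.smul_snd, smul_eq_mul] at hx
      rw [hu, hv]
      have : s * (a * p.1 + b * p.2 - c) + t * (a * q.1 + b * q.2 - c) =
        (a * (s * p.1 + t * q.1) + b * (s * p.2 + t * q.2)) - (s + t) * c := by ring
      rw [this, hx, hst]; ring
    have hs' : s = -v / (u - v) := by
      rw [eq_div_iff huv]
      have : t = 1 - s := by linarith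
      rw [this] at hx'
      linarith
    have ht' : t = u / (u - v) := by linarith
    rw [hs', ht']
  · rintro rfl
    refine ⟨?_, ⟨_, _, ht0.le, ht1.le, hsum, rfl⟩⟩
    simp only [Prod.fst_add, Prod.smul_fst, Prod.snd_add, Prod.smul_snd, smul_eq_mul]
    have h1 : (-v / (u - v)) * u + (u / (u - v)) * v = 0 := by
      field_simp
      ring
    have h2 : a * (-v / (u - v) * p.1 + u / (u - v) * q.1) +
        b * (-v / (u - v) * p.2 + u / (u - v) * q.2) =
        (-v / (u - v)) * u + (u / (u - v)) * v + (-v / (u - v) + u / (u - v)) * c := by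
      rw [hu, hv]; ring
    rw [h2, h1, hsum]; ring

theorem opp_of_stabs (a b c : ℝ) (p q : Pt) (hpq : p ≠ q)
    (h : Stabs {x | a * x.1 + b * x.2 = c} p q) :
    (a * p.1 + b * p.2 - c) * (a * q.1 + b * q.2 - c) < 0 := by
  obtain ⟨z, ⟨s, t, hs, ht, hst, rfl⟩, hz⟩ := h
  set u := a * p.1 + b * p.2 - c with hu
  set v := a * q.1 + b * q.2 - c with hv
  have hmem : s • p + t • q ∈ ({x : Pt | a * x.1 + b * x.2 = c} ∩ segment ℝ p q) := by
    rw [hz]; exact Set.mem_singleton _
  have hx := hmem.1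
  simp only [Set.mem_ofPred_eq, Prod.fst_add, Prod.smul_fst, Prod.snd_add, Prod.smul_snd,
    smul_eq_mul] at hx
  have hx' : s * u + t * v = 0 := by
    rw [hu, hv]
    have : s * (a * p.1 + b * p.2 - c) + t * (a * q.1 + b * q.2 - c) =
      (a * (s * p.1 + t * q.1) + b * (s * p.2 + t * q.2)) - (s + t) * c := by ring
    rw [this, hx, hst]; ring
  by_cases hu0 : u = 0
  · exfalso
    have hv0 : v = 0 := by
      rw [hu0] at hx'
      have : t * v = 0 := by linarith
      rcases mul_eq_zero.mp this with h1 | h1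
      · linarith
      · exact h1
    have hp : p ∈ ({x : Pt | a * x.1 + b * x.2 = c} ∩ segment ℝ p q) :=
      ⟨by simp only [Set.mem_ofPred_eq]; linarith, left_mem_segment ℝ p q⟩
    have hq : q ∈ ({x : Pt | a * x.1 + b * x.2 = c} ∩ segment ℝ p q) :=
      ⟨by simp only [Set.mem_ofPred_eq]; linarith, right_mem_segment ℝ p q⟩
    rw [hz, Set.mem_singleton_iff] at hp hq
    exact hpq (hp.trans hq.symm)
  · have h1 : u * v = -(s / t) * (u * u) := by
      have : v = -(s / t) * u := by
        field_simp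
        linarith
      rw [this]; ring
    rw [h1]
    have : 0 < s / t := div_pos hs ht
    have h2 : 0 < u * u := mul_self_pos.mpr hu0
    nlinarith [mul_pos this h2]

theorem stab_bdd {S : Set Pt} [Finite S] (T : SimpleGraph S) :
    BddAbove {n | ∃ ℓ, IsLine ℓ ∧ n = stabbed T ℓ} := by
  refine ⟨(Set.univ : Set (Sym2 S)).ncard, ?_⟩
  rintro n ⟨ℓ, _, rfl⟩
  exact Set.ncard_le_ncard (Set.subset_univ _) (Set.toFinite _)

/-! ### The lower bound for the six points -/

/-- the six points. -/
def P6 : Fin 6 → ℤ × ℤ := ![(0, 1), (0, 2), (-1, -1), (-2, -2), (1, -1), (2, -2)]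

/-- the six points, in the plane. -/
noncomputable def pt6 (i : Fin 6) : Pt := (((P6 i).1 : ℝ), ((P6 i).2 : ℝ))

/-- coefficients of the six lines `a x + b y = c`. -/
def ln : Fin 6 → ℤ × ℤ × ℤ :=
  ![(-2, 4, -3), (-8, 6, 3), (2, 4, -3), (8, 6, 3), (-8, -2, -3), (8, -2, -3)]

/-- the value at a point. -/
def fv (k i : Fin 6) : ℤ := (ln k).1 * (P6 i).1 + (ln k).2.1 * (P6 i).2 - (ln k).2.2

/-- the line `k` separates the points `i` and `j`. -/
def Opp (k i j : Fin 6) : Prop := fv k i * fv k j < 0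

instance (k i j : Fin 6) : Decidable (Opp k i j) := inferInstanceAs (Decidable (_ < _))

/-- two points of one ray. -/
def Same (x : Fin 6 × Fin 6) : Prop := x.1.val / 2 = x.2.val / 2

instance (x : Fin 6 × Fin 6) : Decidable (Same x) := inferInstanceAs (Decidable (_ = _))

theorem count : ∀ x : Fin 6 × Fin 6, x.1 < x.2 →
    (if Same x then 2 else 4) ≤ (Finset.univ.filter (fun k => Opp k x.1 x.2)).card := by
  decide

theorem same_count :
    (Finset.univ.filter (fun x : Fin 6 × Fin 6 => x.1 < x.2 ∧ Same x)).card = 3 := by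
  decide

theorem P6_inj : Function.Injective P6 := by decide

theorem pt6_inj : Function.Injective pt6 := by
  intro i j h
  apply P6_inj
  have h1 := congrArg Prod.fst h
  have h2 := congrArg Prod.snd h
  simp only [pt6, Int.cast_inj] at h1 h2
  exact Prod.ext h1 h2

/-- the `k`-th line. -/
def lk (k : Fin 6) : Set Pt :=
  {x | ((ln k).1 : ℝ) * x.1 + ((ln k).2.1 : ℝ) * x.2 = ((ln k).2.2 : ℝ)}

theorem ln_ne : ∀ k, (ln k).1 ≠ 0 := by decide

theorem lk_line (k : Fin 6) : IsLine (lk k) :=
  ⟨_, _, _, Or.inl (by exact_mod_cast ln_ne k), rfl⟩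

theorem lk_stabs (k i j : Fin 6) (h : Opp k i j) : Stabs (lk k) (pt6 i) (pt6 j) := by
  apply stabs_of_opp
  have : (fv k i * fv k j : ℤ) < 0 := h
  have h2 : ((fv k i : ℝ) * (fv k j : ℝ)) < 0 := by exact_mod_cast this
  simpa [fv, pt6] using h2

theorem lower (T : SimpleGraph (Set.range pt6)) (hT : T.IsTree) : 3 ≤ stabNumber T := by
  classical
  let e : Fin 6 ≃ Set.range pt6 := Equiv.ofInjective pt6 pt6_inj
  have hval : ∀ i, ((e i : Set.range pt6) : Pt) = pt6 i := fun i => rfl
  have : Fintype (Set.range pt6) := Fintype.ofEquiv _ e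
  have hcard := hT.card_edgeFinset
  have h6 : Fintype.card (Set.range pt6) = 6 := by
    rw [← Fintype.card_congr e, Fintype.card_fin]
  let E : Finset (Fin 6 × Fin 6) :=
    Finset.univ.filter (fun x => x.1 < x.2 ∧ T.Adj (e x.1) (e x.2))
  have h5 : 5 ≤ E.card := by
    have hsub : T.edgeFinset ⊆ E.image (fun x => s(e x.1, e x.2)) := by
      intro x hx
      induction x with
      | _ p q =>
      rw [SimpleGraph.mem_edgeFinset, SimpleGraph.mem_edgeSet] at hx
      rw [Finset.mem_image]
      rcases lt_trichotomy (e.symm p) (e.symm q) with h | h | h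
      · exact ⟨(e.symm p, e.symm q), Finset.mem_filter.mpr ⟨Finset.mem_univ _, h, by simpa using hx⟩,
          by simp⟩
      · exact absurd (e.symm.injective h) hx.ne
      · exact ⟨(e.symm q, e.symm p), Finset.mem_filter.mpr ⟨Finset.mem_univ _, h,
          by simpa using hx.symm⟩, by simp [Sym2.eq_swap]⟩
    have h1 := (Finset.card_le_card hsub).trans Finset.card_image_le
    omega
  by_contra hlt
  have hk2 : ∀ k, stabbed T (lk k) ≤ 2 := by
    intro k
    have h1 : stabbed T (lk k) ≤ stabNumber T := le_csSup (stab_bdd T) ⟨lk k, lk_line k, rfl⟩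
    omega
  have hk : ∀ k, (E.filter (fun x => Opp k x.1 x.2)).card ≤ 2 := by
    intro k
    refine le_trans ?_ (hk2 k)
    have hinj : Set.InjOn (fun x : Fin 6 × Fin 6 => s(e x.1, e x.2))
        ((E.filter (fun x => Opp k x.1 x.2) : Finset _) : Set (Fin 6 × Fin 6)) := by
      intro x hx y hy hxy
      have hx1 : x.1 < x.2 := (Finset.mem_filter.mp (Finset.mem_filter.mp hx).1).2.1
      have hy1 : y.1 < y.2 := (Finset.mem_filter.mp (Finset.mem_filter.mp hy).1).2.1
      rcases Sym2.eq_iff.mp hxy with ⟨h1, h2⟩ | ⟨h1, h2⟩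
      · exact Prod.ext (e.injective h1) (e.injective h2)
      · have h1' := e.injective h1
        have h2' := e.injective h2
        rw [h1', h2'] at hx1
        exact absurd hx1 (lt_asymm hy1)
    rw [← Finset.card_image_of_injOn hinj, ← Set.ncard_coe_finset]
    apply Set.ncard_le_ncard _ (Set.toFinite _)
    intro x hx
    rw [Finset.mem_coe, Finset.mem_image] at hx
    obtain ⟨y, hy, rfl⟩ := hx
    obtain ⟨hyE, hopp⟩ := Finset.mem_filter.mp hy
    obtain ⟨_, _, hadj⟩ := Finset.mem_filter.mp hyE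
    exact ⟨hadj, e y.1, e y.2, rfl, lk_stabs k y.1 y.2 hopp⟩
  have hsum1 : ∑ k : Fin 6, (E.filter (fun x => Opp k x.1 x.2)).card ≤ 12 := by
    calc ∑ k : Fin 6, (E.filter (fun x => Opp k x.1 x.2)).card ≤ ∑ k : Fin 6, 2 :=
          Finset.sum_le_sum (fun k _ => hk k)
      _ = 12 := by simp
  have hsum2 : ∑ k : Fin 6, (E.filter (fun x => Opp k x.1 x.2)).card =
      ∑ x ∈ E, (Finset.univ.filter (fun k => Opp k x.1 x.2)).card := by
    simp only [Finset.card_filter]
    exact Finset.sum_comm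
  have hsum3 : ∑ x ∈ E, (if Same x then 2 else 4) ≤
      ∑ x ∈ E, (Finset.univ.filter (fun k => Opp k x.1 x.2)).card :=
    Finset.sum_le_sum (fun x hx => count x (Finset.mem_filter.mp hx).2.1)
  have hsum4 : ∑ x ∈ E, (if Same x then 2 else 4) + 2 * (E.filter Same).card = 4 * E.card := by
    rw [Finset.card_filter, Finset.mul_sum, ← Finset.sum_add_distrib, Finset.card_eq_sum_ones,
      Finset.mul_sum]
    apply Finset.sum_congr rfl
    intro x _
    split_ifs <;> rfl
  have hsame : (E.filter Same).card ≤ 3 := by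
    rw [← same_count]
    apply Finset.card_le_card
    intro x hx
    obtain ⟨h1, h2⟩ := Finset.mem_filter.mp hx
    exact Finset.mem_filter.mpr ⟨Finset.mem_univ _, (Finset.mem_filter.mp h1).2.1, h2⟩
  omega

theorem exists_tree {S : Set Pt} [Finite S] [Nonempty S] : ∃ T : SimpleGraph S, T.IsTree := by
  classical
  obtain ⟨T, _, hT⟩ := (SimpleGraph.connected_top (V := S)).exists_isTree_le
  exact ⟨T, hT⟩

theorem lower_stab : 3 ≤ treeStab (Set.range pt6) := by
  have : Nonempty (Set.range pt6) := ⟨⟨pt6 0, 0, rfl⟩⟩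
  obtain ⟨T, hT⟩ := exists_tree (S := Set.range pt6)
  have hne : {n | ∃ T : SimpleGraph (Set.range pt6), T.IsTree ∧ n = stabNumber T}.Nonempty :=
    ⟨_, T, hT, rfl⟩
  obtain ⟨T', hT', h⟩ := Nat.sInf_mem hne
  unfold treeStab
  rw [h]
  exact lower T' hT'

/-! ### The upper bound for the seven points -/

/-- the seven points. -/
def P7 : Fin 7 → ℤ × ℤ := ![(0, 0), (0, 1), (0, 2), (-1, -1), (-2, -2), (1, -1), (2, -2)]

/-- the seven points, in the plane. -/
noncomputable def pt7 (i : Fin 7) : Pt := (((P7 i).1 : ℝ), ((P7 i).2 : ℝ))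

theorem P7_inj : Function.Injective P7 := by decide

theorem pt7_inj : Function.Injective pt7 := by
  intro i j h
  apply P7_inj
  have h1 := congrArg Prod.fst h
  have h2 := congrArg Prod.snd h
  simp only [pt7, Int.cast_inj] at h1 h2
  exact Prod.ext h1 h2

/-- the edges of the tree along the three rays. -/
def ed : Fin 6 → Fin 7 × Fin 7 := ![(0, 1), (1, 2), (0, 3), (3, 4), (0, 5), (5, 6)]

theorem ed_ne : ∀ j, (ed j).1 ≠ (ed j).2 := by decide

/-- value at a point. -/
noncomputable def gv (a b c : ℝ) (i : Fin 7) : ℝ := a * (pt7 i).1 + b * (pt7 i).2 - c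

theorem card_le_two (u : Fin 6 → Prop) [DecidablePred u] (h1 : ¬ (u 0 ∧ u 1)) (h2 : ¬ (u 2 ∧ u 3))
    (h3 : ¬ (u 4 ∧ u 5)) (h4 : ¬ ((u 0 ∨ u 1) ∧ (u 2 ∨ u 3) ∧ (u 4 ∨ u 5))) :
    (Finset.univ.filter u).card ≤ 2 := by
  rw [Finset.card_filter, Fin.sum_univ_six]
  split_ifs <;> first | omega | (exfalso; tauto)

theorem opp_card (a b c : ℝ) [DecidablePred (fun j : Fin 6 =>
    gv a b c (ed j).1 * gv a b c (ed j).2 < 0)] :
    (Finset.univ.filter (fun j : Fin 6 => gv a b c (ed j).1 * gv a b c (ed j).2 < 0)).card ≤ 2 := by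
  have e0 : gv a b c 0 = -c := by simp [gv, pt7, P7]
  have e1 : gv a b c 1 = b - c := by simp [gv, pt7, P7]
  have e2 : gv a b c 2 = 2 * b - c := by simp [gv, pt7, P7]; ring
  have e3 : gv a b c 3 = -a - b - c := by simp [gv, pt7, P7]; ring
  have e4 : gv a b c 4 = -2 * a - 2 * b - c := by simp [gv, pt7, P7]; ring
  have e5 : gv a b c 5 = a - b - c := by simp [gv, pt7, P7]; ring
  have e6 : gv a b c 6 = 2 * a - 2 * b - c := by simp [gv, pt7, P7]; ring
  -- one ray with slope `m`
  have ray : ∀ m : ℝ, ¬ ((-c) * (m - c) < 0 ∧ (m - c) * (2 * m - c) < 0) := by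
    rintro m ⟨h1, h2⟩
    nlinarith [sq_nonneg (m - c)]
  have pos : ∀ m : ℝ, ((-c) * (m - c) < 0 ∨ (m - c) * (2 * m - c) < 0) → 0 < c * m := by
    rintro m (h | h)
    · nlinarith [sq_nonneg c]
    · nlinarith [sq_nonneg c, sq_nonneg m, sq_nonneg (m - c), sq_nonneg (2 * m - c)]
  apply card_le_two
  · show ¬ (gv a b c 0 * gv a b c 1 < 0 ∧ gv a b c 1 * gv a b c 2 < 0)
    rw [e0, e1, e2]; exact ray b
  · show ¬ (gv a b c 0 * gv a b c 3 < 0 ∧ gv a b c 3 * gv a b c 4 < 0)
    rw [e0, e3, e4]
    have := ray (-a - b)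
    rw [show 2 * (-a - b) - c = -2 * a - 2 * b - c by ring] at this
    exact this
  · show ¬ (gv a b c 0 * gv a b c 5 < 0 ∧ gv a b c 5 * gv a b c 6 < 0)
    rw [e0, e5, e6]
    have := ray (a - b)
    rw [show 2 * (a - b) - c = 2 * a - 2 * b - c by ring] at this
    exact this
  · show ¬ ((gv a b c 0 * gv a b c 1 < 0 ∨ gv a b c 1 * gv a b c 2 < 0) ∧
      (gv a b c 0 * gv a b c 3 < 0 ∨ gv a b c 3 * gv a b c 4 < 0) ∧
      (gv a b c 0 * gv a b c 5 < 0 ∨ gv a b c 5 * gv a b c 6 < 0))
    rw [e0, e1, e2, e3, e4, e5, e6]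
    rintro ⟨h1, h2, h3⟩
    have p1 := pos b h1
    have p2 := pos (-a - b) (by
      rw [show 2 * (-a - b) - c = -2 * a - 2 * b - c by ring]; exact h2)
    have p3 := pos (a - b) (by
      rw [show 2 * (a - b) - c = 2 * a - 2 * b - c by ring]; exact h3)
    nlinarith

/-- the tree along the three rays, as a graph. -/
noncomputable def T0 : SimpleGraph (Set.range pt7) :=
  SimpleGraph.fromEdgeSet (Set.range (fun j : Fin 6 =>
    s(Equiv.ofInjective pt7 pt7_inj (ed j).1, Equiv.ofInjective pt7 pt7_inj (ed j).2)))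

theorem T0_adj (j : Fin 6) : T0.Adj (Equiv.ofInjective pt7 pt7_inj (ed j).1)
    (Equiv.ofInjective pt7 pt7_inj (ed j).2) := by
  unfold T0
  rw [SimpleGraph.fromEdgeSet_adj]
  exact ⟨⟨j, rfl⟩, fun h => ed_ne j ((Equiv.ofInjective pt7 pt7_inj).injective h)⟩

theorem T0_conn : T0.Connected := by
  have h0 : ∀ i : Fin 7, T0.Reachable (Equiv.ofInjective pt7 pt7_inj 0)
      (Equiv.ofInjective pt7 pt7_inj i) := by
    have a0 := (T0_adj 0).reachable
    have a1 := (T0_adj 1).reachable
    have a2 := (T0_adj 2).reachable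
    have a3 := (T0_adj 3).reachable
    have a4 := (T0_adj 4).reachable
    have a5 := (T0_adj 5).reachable
    intro i
    fin_cases i
    · exact SimpleGraph.Reachable.refl _
    · exact a0
    · exact a0.trans a1
    · exact a2
    · exact a2.trans a3
    · exact a4
    · exact a4.trans a5
  have : Nonempty (Set.range pt7) := ⟨⟨pt7 0, 0, rfl⟩⟩
  refine SimpleGraph.Connected.mk (fun u v => ?_)
  have hu := h0 ((Equiv.ofInjective pt7 pt7_inj).symm u)
  have hv := h0 ((Equiv.ofInjective pt7 pt7_inj).symm v)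
  rw [Equiv.apply_symm_apply] at hu hv
  exact hu.symm.trans hv

theorem upper_stab : treeStab (Set.range pt7) ≤ 2 := by
  classical
  have hfin : Finite (Set.range pt7) := Finite.of_equiv _ (Equiv.ofInjective pt7 pt7_inj)
  obtain ⟨T, hle, hT⟩ := T0_conn.exists_isTree_le
  have hle1 : treeStab (Set.range pt7) ≤ stabNumber T := Nat.sInf_le ⟨T, hT, rfl⟩
  refine hle1.trans ?_
  unfold stabNumber
  have hne : {n | ∃ ℓ, IsLine ℓ ∧ n = stabbed T ℓ}.Nonempty :=
    ⟨_, {x | (1 : ℝ) * x.1 + 0 * x.2 = 0}, ⟨1, 0, 0, Or.inl one_ne_zero, rfl⟩, rfl⟩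
  apply csSup_le hne
  rintro n ⟨ℓ, ⟨a, b, c, _, rfl⟩, rfl⟩
  refine le_trans ?_ (opp_card a b c)
  unfold stabbed
  have hsub : {e : Sym2 (Set.range pt7) | e ∈ T.edgeSet ∧ ∃ p q : Set.range pt7, e = s(p, q) ∧
      Stabs {x | a * x.1 + b * x.2 = c} p q} ⊆
      (((Finset.univ.filter (fun j : Fin 6 => gv a b c (ed j).1 * gv a b c (ed j).2 < 0)).image
        (fun j => s(Equiv.ofInjective pt7 pt7_inj (ed j).1,
          Equiv.ofInjective pt7 pt7_inj (ed j).2)) : Finset _) : Set (Sym2 (Set.range pt7))) := by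
    rintro x ⟨hx, p, q, rfl, hst⟩
    have hadj : T0.Adj p q := hle hx
    have hpq : (p : Pt) ≠ q := fun h => hadj.ne (Subtype.ext h)
    have hopp := opp_of_stabs a b c p q hpq hst
    unfold T0 at hadj
    rw [SimpleGraph.fromEdgeSet_adj] at hadj
    obtain ⟨⟨j, hj⟩, _⟩ := hadj
    rw [Finset.mem_coe, Finset.mem_image]
    refine ⟨j, Finset.mem_filter.mpr ⟨Finset.mem_univ _, ?_⟩, hj⟩
    rcases Sym2.eq_iff.mp hj with ⟨h1, h2⟩ | ⟨h1, h2⟩
    · rw [← h1, ← h2] at hopp
      exact hopp
    · rw [← h1, ← h2, mul_comm] at hopp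
      exact hopp
  refine (Set.ncard_le_ncard hsub (Finset.finite_toSet _)).trans ?_
  rw [Set.ncard_coe_finset]
  exact Finset.card_image_le

/-- The tree stabbing number is not monotone: there are finite sets `S' ⊆ S` of 6 and 7 points of the plane with
`TREE-STAB(S) ≤ 2 < 3 ≤ TREE-STAB(S')`. -/
theorem result : ∃ S' S : Set Pt, S.Finite ∧ S'.Nonempty ∧ S' ⊆ S ∧ S'.ncard = 6 ∧ S.ncard = 7 ∧
    treeStab S ≤ 2 ∧ 3 ≤ treeStab S' := by
  refine ⟨Set.range pt6, Set.range pt7, Set.finite_range _, ⟨pt6 0, 0, rfl⟩, ?_, ?_, ?_,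
    upper_stab, lower_stab⟩
  · rintro x ⟨i, rfl⟩
    have h : ∀ i : Fin 6, P7 i.succ = P6 i := by decide
    exact ⟨i.succ, by unfold pt7 pt6; rw [h i]⟩
  · rw [Set.ncard_range_of_injective pt6_inj]; simp
  · rw [Set.ncard_range_of_injective pt7_inj]; simp

end Pool.Agent.Results.MP_3f72ec_co.TreeStabNotMonotone
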